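import Pool.Agent.SGY.Stmts
import Pool.Agent.Helper81_SGP.Cone
import Pool.Agent.Helper56_SGP.CTR

set_option autoImplicit false

namespace Pool.Agent.SGY.H56

open Pool.Agent.SGE Pool.Agent.SGP Pool.Agent.SGY

theorem cap_step {V : Type} [Fintype V] {a b v p z y : V} {E : V → V → Prop}
    {F : V → V → V → Prop} {P U Q : List V} (hv : ∀ x, ¬ E v x)
    (hy : y ∉ U ++ [z]) (hyv : y ≠ v)
    (h : NT a b (P ++ p :: v :: z :: y :: Q) (cE E v (U ++ [z])) (cF F v (U ++ [z]))) :
    NT a b (P ++ p :: v :: y :: Q) (cE E v ((U ++ [z]) ++ [y])) (cF F v ((U ++ [z]) ++ [y])) := by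
  have hE : ¬ cE E v (U ++ [z]) v y := by
    rintro (h1 | ⟨-, h1⟩ | ⟨h1, -⟩)
    · exact hv y h1
    · exact hy h1
    · exact hyv h1
  have e : P ++ p :: v :: z :: y :: Q = (P ++ [p]) ++ v :: z :: y :: Q := by simp
  have e' : P ++ p :: v :: y :: Q = (P ++ [p]) ++ v :: y :: Q := by simp
  rw [e] at h
  rw [e']
  have h3 := Pool.Agent.SGE.H51.ntb h hE
  rw [Pool.Agent.SGP.H81.cE_step, Pool.Agent.SGP.H81.cF_step] at h3
  exact h3

theorem cap_aux {V : Type} [Fintype V] {a b v p q : V} {E : V → V → Prop}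
    {F : V → V → V → Prop} {P Q : List V} (hv : ∀ x, ¬ E v x) (mid : List V) :
    ∀ (U : List V) (z : V), (U ++ z :: (mid ++ [q])).Nodup → v ∉ U ++ z :: (mid ++ [q]) →
      NT a b (P ++ p :: v :: z :: (mid ++ q :: Q)) (cE E v (U ++ [z])) (cF F v (U ++ [z])) →
      NT a b (P ++ p :: v :: q :: Q) (cE E v (U ++ z :: (mid ++ [q])))
        (cF F v (U ++ z :: (mid ++ [q]))) := by
  induction mid with
  | nil =>
    intro U z hnd hvz h
    have e : U ++ z :: ([] ++ [q]) = (U ++ [z]) ++ [q] := by simp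
    rw [e] at hnd hvz ⊢
    refine cap_step hv ?_ ?_ h
    · intro h1
      exact (List.disjoint_of_nodup_append hnd) h1 (List.mem_singleton.2 rfl)
    · rintro rfl
      exact hvz (by simp)
  | cons y mid ih =>
    intro U z hnd hvz h
    have e : U ++ z :: (y :: mid ++ [q]) = (U ++ [z]) ++ y :: (mid ++ [q]) := by simp
    rw [e] at hnd hvz ⊢
    refine ih (U ++ [z]) y hnd hvz ?_
    refine cap_step hv ?_ ?_ h
    · intro h1
      exact (List.disjoint_of_nodup_append hnd) h1 (List.mem_cons_self)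
    · rintro rfl
      exact hvz (by simp)

theorem cap : CapStmt := by
  intro V _ a b P mid Q p q v E F h hv
  have hvC : v ∉ P ++ p :: (mid ++ q :: Q) := by
    intro h1
    obtain ⟨y, hy⟩ := Pool.Agent.SGP.H56.contour_nb h h1
    exact hv y hy
  have hnd := h.nd
  have hnd' : (p :: (mid ++ [q])).Nodup := by
    have e : P ++ p :: (mid ++ q :: Q) = P ++ ((p :: (mid ++ [q])) ++ Q) := by simp
    rw [e] at hnd
    exact (List.nodup_append.1 (List.nodup_append.1 hnd).2.1).1
  have hv' : v ∉ p :: (mid ++ [q]) := by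
    intro h1
    apply hvC
    simp only [List.mem_append, List.mem_cons, List.not_mem_nil, or_false] at h1 ⊢
    tauto
  cases mid with
  | nil =>
    have h4 := Pool.Agent.SGE.H51.nta h hv
    rw [Pool.Agent.SGP.H81.cE_base, Pool.Agent.SGP.H81.cF_base] at h4
    exact h4
  | cons z mid =>
    have h4 := Pool.Agent.SGE.H51.nta (P := P) (p := p) (q := z) (Q := mid ++ q :: Q) h hv
    rw [Pool.Agent.SGP.H81.cE_base, Pool.Agent.SGP.H81.cF_base] at h4
    exact cap_aux hv mid [p] z hnd' hv' h4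

end Pool.Agent.SGY.H56
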