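import Pool.Agent.SGY.Stmts
import Pool.Agent.Helper17_SGP.RMV
import Pool.Agent.Helper36_SGE.NT0
import Pool.Agent.Helper56_SGP.CTR

set_option autoImplicit false

namespace Pool.Agent.SGY.H56

open Pool.Agent.SGE Pool.Agent.SGP Pool.Agent.SGY

theorem con_rel {V : Type} {R : V → V → Prop} {Z : List V} {x y : V} (h : Con Z x y)
    (hZ : Z.IsChain R) : R x y := by
  obtain ⟨A, B, rfl⟩ := h
  rw [List.isChain_append] at hZ
  exact (List.isChain_cons_cons.1 hZ.2.1).1

theorem con_mem {V : Type} {Z : List V} {x y : V} (h : Con Z x y) : x ∈ Z ∧ y ∈ Z := by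
  obtain ⟨A, B, rfl⟩ := h
  simp

/-- the lists -/
theorem lists {V : Type} {M M₁ M₂ : List V} {u w p v q : V}
    (h : u :: (M ++ [w]) = M₁ ++ p :: v :: q :: M₂) :
    ∃ A B : List V, M₁ ++ [p] = u :: A ∧ q :: M₂ = B ++ [w] ∧ M = A ++ v :: B := by
  obtain ⟨A, hA⟩ : ∃ A, M₁ ++ [p] = u :: A := by
    cases M₁ with
    | nil =>
      simp only [List.nil_append, List.cons.injEq] at h
      exact ⟨[], by simp [h.1]⟩
    | cons t M₁ =>
      simp only [List.cons_append, List.cons.injEq] at h
      exact ⟨M₁ ++ [p], by simp [h.1]⟩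
  obtain ⟨B, t, hB⟩ : ∃ B t, q :: M₂ = B ++ [t] := by
    rcases List.eq_nil_or_concat (q :: M₂) with h1 | ⟨B, t, h1⟩
    · exact absurd h1 (by simp)
    · exact ⟨B, t, by rw [h1, List.concat_eq_append]⟩
  have e : M₁ ++ p :: v :: q :: M₂ = (M₁ ++ [p]) ++ v :: (q :: M₂) := by simp
  rw [e, hA, hB] at h
  have e2 : u :: A ++ v :: (B ++ [t]) = u :: ((A ++ v :: B) ++ [t]) := by simp
  rw [e2] at h
  have h2 := (List.cons.inj h).2
  have h3 := List.append_inj' h2 (by simp)
  have h4 : w = t := by simpa using h3.2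
  subst h4
  exact ⟨A, B, hA, hB, h3.1⟩

theorem spl_nil {V : Type} [Fintype V] {a b : V} {P Q : List V} {u w : V}
    {E : V → V → Prop} {F : V → V → V → Prop} (N : NT a b (P ++ u :: ([] ++ w :: Q)) E F)
    (h : E u w) : ∃ U : Set V, (∀ x ∈ ([] : List V), x ∈ U) ∧ (∀ x ∈ P ++ u :: w :: Q, x ∉ U) ∧
    (∀ x ∈ U, Rel E x) ∧
    (∀ x ∈ U, ∀ y, E x y → y ∈ U ∨ y = u ∨ y = w) ∧
    NT a b (P ++ u :: w :: Q) (offE E U) (offF F U) ∧
    NT u w (u :: ([] ++ [w])) (onE E (U ∪ {u, w})) (onF F (U ∪ {u, w})) := by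
  have huw : u ≠ w := by
    rintro rfl
    exact N.irr _ h
  refine ⟨∅, by simp, by simp, by simp, by simp, ?_, ?_⟩
  · have e1 : offE E ∅ = E := by
      funext x y
      simp [offE]
    have e2 : offF F ∅ = F := by
      funext x y z
      simp [offF]
    rw [e1, e2]
    exact N
  · have e1 : onE E (∅ ∪ {u, w}) = (fun x y => (x = u ∧ y = w) ∨ (x = w ∧ y = u)) := by
      funext x y
      apply propext
      simp only [onE, Set.empty_union, Set.mem_insert_iff, Set.mem_singleton_iff]
      constructor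
      · rintro ⟨h1, h2 | h2, h3 | h3⟩
        · rw [h2, h3] at h1
          exact absurd h1 (N.irr _)
        · exact Or.inl ⟨h2, h3⟩
        · exact Or.inr ⟨h2, h3⟩
        · rw [h2, h3] at h1
          exact absurd h1 (N.irr _)
      · rintro (⟨rfl, rfl⟩ | ⟨rfl, rfl⟩)
        · exact ⟨h, Or.inl rfl, Or.inr rfl⟩
        · exact ⟨N.sym _ _ h, Or.inr rfl, Or.inl rfl⟩
    have e2 : onF F (∅ ∪ {u, w}) = (fun _ _ _ => False) := by
      funext x y z
      apply propext
      simp only [onF, Set.empty_union, Set.mem_insert_iff, Set.mem_singleton_iff, iff_false]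
      rintro ⟨h1, h2, h3, h4⟩
      have hxy : x ≠ y := by
        rintro rfl
        exact N.irr _ (N.fe _ _ _ h1)
      have hyz : y ≠ z := by
        rintro rfl
        exact N.irr _ (N.fe _ _ _ (N.rot _ _ _ h1))
      have hzx : z ≠ x := by
        rintro rfl
        exact N.irr _ (N.fe _ _ _ (N.rot _ _ _ (N.rot _ _ _ h1)))
      rcases h2 with rfl | rfl <;> rcases h3 with rfl | rfl <;> rcases h4 with rfl | rfl <;>
        simp_all
    rw [e1, e2]
    exact Pool.Agent.SGE.H36.nt0 huw

theorem spl_aux (chl : ChlStmt) (cap : CapStmt) {V : Type} [Fintype V] {a b : V} (n : ℕ) :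
    ∀ {P M Q : List V} {u w : V} {E : V → V → Prop} {F : V → V → V → Prop},
    {x | Rel E x}.ncard ≤ n →
    NT a b (P ++ u :: (M ++ w :: Q)) E F → E u w →
    ∃ U : Set V, (∀ x ∈ M, x ∈ U) ∧ (∀ x ∈ P ++ u :: w :: Q, x ∉ U) ∧ (∀ x ∈ U, Rel E x) ∧
    (∀ x ∈ U, ∀ y, E x y → y ∈ U ∨ y = u ∨ y = w) ∧
    NT a b (P ++ u :: w :: Q) (offE E U) (offF F U) ∧
    NT u w (u :: (M ++ [w])) (onE E (U ∪ {u, w})) (onF F (U ∪ {u, w})) := by
  induction n with
  | zero =>
    intro P M Q u w E F hn N h
    exfalso
    have h1 : {x | Rel E x}.ncard = 0 := by omega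
    rw [Set.ncard_eq_zero (Set.toFinite _)] at h1
    have h2 : u ∈ {x | Rel E x} := ⟨w, h⟩
    rw [h1] at h2
    exact h2
  | succ n ih =>
    intro P M Q u w E F hn N h
    by_cases hM0 : M = []
    · subst hM0
      exact spl_nil N h
    obtain ⟨M₁, p, v, q, M₂, hM, hch⟩ := chl N hM0 h
    obtain ⟨A, B, hA, hB, hMAB⟩ := lists hM
    have hnd := N.nd
    have hC : P ++ u :: (M ++ w :: Q) = (P ++ M₁) ++ p :: v :: q :: (M₂ ++ Q) := by
      have e : P ++ u :: (M ++ w :: Q) = P ++ ((u :: (M ++ [w])) ++ Q) := by simp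
      rw [e, hM]
      simp
    have hC2 : P ++ u :: (M ++ w :: Q) = (P ++ u :: A) ++ v :: (B ++ w :: Q) := by
      rw [hMAB]
      simp
    -- `v` is not on the rest of the contour
    have hvn : v ∉ P ++ u :: w :: Q := by
      rw [hC2] at hnd
      rw [List.nodup_append] at hnd
      obtain ⟨h1, h2, h3⟩ := hnd
      rw [List.nodup_cons] at h2
      intro h4
      simp only [List.mem_append, List.mem_cons] at h4
      rcases h4 with h4 | h4 | h4 | h4
      · exact h3 v (by simp [h4]) v (by simp) rfl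
      · exact h3 v (by simp [h4]) v (by simp) rfl
      · exact h2.1 (by simp [h4])
      · exact h2.1 (by simp [h4])
    have hvu : v ≠ u := by
      rintro rfl
      exact hvn (by simp)
    have hvw : v ≠ w := by
      rintro rfl
      exact hvn (by simp)
    have N0 : NT a b ((P ++ M₁) ++ p :: v :: q :: (M₂ ++ Q)) E F := hC ▸ N
    rw [hC] at hch
    obtain ⟨mid, N', hnv, hmch, hcon⟩ := Pool.Agent.SGP.H17.rmv N0 hch
    have hC3 : (P ++ M₁) ++ p :: (mid ++ q :: (M₂ ++ Q)) =
        P ++ u :: ((A ++ (mid ++ B)) ++ w :: Q) := by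
      have e : (P ++ M₁) ++ p :: (mid ++ q :: (M₂ ++ Q)) =
        P ++ (M₁ ++ [p]) ++ mid ++ ((q :: M₂) ++ Q) := by simp
      rw [e, hA, hB]
      simp
    have hC4 : u :: ((A ++ (mid ++ B)) ++ [w]) = M₁ ++ p :: (mid ++ q :: M₂) := by
      have e : M₁ ++ p :: (mid ++ q :: M₂) = (M₁ ++ [p]) ++ mid ++ (q :: M₂) := by simp
      rw [e, hA, hB]
      simp
    rw [hC3] at N'
    have hvp : E v p := (hnv p).2 (by simp)
    have hlt : {x | Rel (rE E v) x}.ncard ≤ n := by
      have h1 : {x | Rel (rE E v) x} ⊂ {x | Rel E x} := by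
        rw [Set.ssubset_iff_of_subset]
        · refine ⟨v, ⟨p, hvp⟩, ?_⟩
          rintro ⟨y, hy⟩
          exact hy.2.1 rfl
        · rintro x ⟨y, hy⟩
          exact ⟨y, hy.1⟩
      have h2 := Set.ncard_lt_ncard h1 (Set.toFinite _)
      omega
    obtain ⟨U, h1, h2, h3, h4, h5, h6⟩ := ih hlt N' ⟨h, hvu.symm, hvw.symm⟩
    -- the vertices of the part of the contour
    have hmem : ∀ y, y ∈ p :: (mid ++ [q]) → y ∈ U ∨ y = u ∨ y = w := by
      intro y hy
      have h7 : y ∈ u :: ((A ++ (mid ++ B)) ++ [w]) := by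
        rw [hC4]
        simp only [List.mem_append, List.mem_cons, List.not_mem_nil, or_false] at hy ⊢
        tauto
      rw [List.mem_cons, List.mem_append, List.mem_singleton] at h7
      rcases h7 with h7 | h7 | h7
      · exact Or.inr (Or.inl h7)
      · exact Or.inl (h1 y h7)
      · exact Or.inr (Or.inr h7)
    refine ⟨insert v U, ?_, ?_, ?_, ?_, ?_, ?_⟩
    · intro x hx
      rw [hMAB] at hx
      rw [List.mem_append, List.mem_cons] at hx
      rcases hx with hx | hx | hx
      · exact Or.inr (h1 x (by simp [hx]))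
      · exact Or.inl hx
      · exact Or.inr (h1 x (by simp [hx]))
    · rintro x hx (hxv | hxU)
      · rw [hxv] at hx
        exact hvn hx
      · exact h2 x hx hxU
    · rintro x (hxv | hxU)
      · rw [hxv]
        exact ⟨p, hvp⟩
      · obtain ⟨y, hy⟩ := h3 x hxU
        exact ⟨y, hy.1⟩
    · rintro x (hxv | hxU) y hxy
      · rw [hxv] at hxy
        rcases hmem y ((hnv y).1 hxy) with h7 | h7
        · exact Or.inl (Or.inr h7)
        · exact Or.inr h7
      · by_cases hyv : y = v
        · exact Or.inl (Or.inl hyv)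
        · obtain ⟨z, hz⟩ := h3 x hxU
          rcases h4 x hxU y ⟨hxy, hz.2.1, hyv⟩ with h7 | h7
          · exact Or.inl (Or.inr h7)
          · exact Or.inr h7
    · have e1 : offE E (insert v U) = offE (rE E v) U := by
        funext x y
        apply propext
        simp only [offE, rE, Set.mem_insert_iff]
        tauto
      have e2 : offF F (insert v U) = offF (rF F v) U := by
        funext x y z
        apply propext
        simp only [offF, rF, Set.mem_insert_iff]
        tauto
      rw [e1, e2]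
      exact h5
    · rw [hC4] at h6
      have h7 := cap (v := v) h6 (fun x hx => hx.1.2.1 rfl)
      rw [← hM] at h7
      have e1 : onE E (insert v U ∪ {u, w}) =
          cE (onE (rE E v) (U ∪ {u, w})) v (p :: (mid ++ [q])) := by
        funext x y
        apply propext
        constructor
        · rintro ⟨g1, g2, g3⟩
          by_cases hx : x = v
          · rw [hx] at g1
            exact Or.inr (Or.inl ⟨hx, (hnv y).1 g1⟩)
          · by_cases hy : y = v
            · rw [hy] at g1
              exact Or.inr (Or.inr ⟨hy, (hnv x).1 (N.sym _ _ g1)⟩)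
            · refine Or.inl ⟨⟨g1, hx, hy⟩, ?_, ?_⟩
              · rcases g2 with (g2 | g2) | g2
                · exact absurd g2 hx
                · exact Or.inl g2
                · exact Or.inr g2
              · rcases g3 with (g3 | g3) | g3
                · exact absurd g3 hy
                · exact Or.inl g3
                · exact Or.inr g3
        · have key : ∀ y, y ∈ p :: (mid ++ [q]) → y ∈ insert v U ∪ {u, w} := by
            intro y hy
            rcases hmem y hy with g | g
            · exact Or.inl (Or.inr g)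
            · exact Or.inr g
          have key2 : ∀ y, y ∈ U ∪ {u, w} → y ∈ insert v U ∪ {u, w} := by
            rintro y (g | g)
            · exact Or.inl (Or.inr g)
            · exact Or.inr g
          rintro (⟨g1, g2, g3⟩ | ⟨g1, g2⟩ | ⟨g1, g2⟩)
          · exact ⟨g1.1, key2 _ g2, key2 _ g3⟩
          · rw [g1]
            exact ⟨(hnv y).2 g2, Or.inl (Or.inl rfl), key y g2⟩
          · rw [g1]
            exact ⟨N.sym _ _ ((hnv x).2 g2), key x g2, Or.inl (Or.inl rfl)⟩
      have e2 : onF F (insert v U ∪ {u, w}) =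
          cF (onF (rF F v) (U ∪ {u, w})) v (p :: (mid ++ [q])) := by
        funext x y z
        apply propext
        constructor
        · have key3 : ∀ y, y ≠ v → y ∈ insert v U ∪ {u, w} → y ∈ U ∪ {u, w} := by
            rintro y hy ((g | g) | g)
            · exact absurd g hy
            · exact Or.inl g
            · exact Or.inr g
          rintro ⟨g1, g2, g3, g4⟩
          by_cases hz : z = v
          · rw [hz] at g1
            exact Or.inr (Or.inl ⟨hcon x y g1, hz⟩)
          · by_cases hx : x = v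
            · rw [hx] at g1
              exact Or.inr (Or.inr (Or.inl ⟨hcon y z (N.rot _ _ _ g1), hx⟩))
            · by_cases hy : y = v
              · rw [hy] at g1
                exact Or.inr (Or.inr (Or.inr ⟨hcon z x (N.rot _ _ _ (N.rot _ _ _ g1)), hy⟩))
              · exact Or.inl ⟨⟨g1, hx, hy, hz⟩, key3 x hx g2, key3 y hy g3, key3 z hz g4⟩
        · have key : ∀ y, y ∈ p :: (mid ++ [q]) → y ∈ insert v U ∪ {u, w} := by
            intro y hy
            rcases hmem y hy with g | g
            · exact Or.inl (Or.inr g)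
            · exact Or.inr g
          have key2 : ∀ y, y ∈ U ∪ {u, w} → y ∈ insert v U ∪ {u, w} := by
            rintro y (g | g)
            · exact Or.inl (Or.inr g)
            · exact Or.inr g
          have kv : v ∈ insert v U ∪ {u, w} := Or.inl (Or.inl rfl)
          rintro (⟨g1, g2, g3, g4⟩ | ⟨g1, g2⟩ | ⟨g1, g2⟩ | ⟨g1, g2⟩)
          · exact ⟨g1.1, key2 _ g2, key2 _ g3, key2 _ g4⟩
          · rw [g2]
            exact ⟨con_rel (R := fun x y => F x y v) g1 hmch, key _ (con_mem g1).1, key _ (con_mem g1).2, kv⟩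
          · rw [g2]
            exact ⟨N.rot _ _ _ (N.rot _ _ _ (con_rel (R := fun x y => F x y v) g1 hmch)), kv, key _ (con_mem g1).1,
              key _ (con_mem g1).2⟩
          · rw [g2]
            exact ⟨N.rot _ _ _ (con_rel (R := fun x y => F x y v) g1 hmch), key _ (con_mem g1).2, kv,
              key _ (con_mem g1).1⟩
      rw [e1, e2]
      exact h7

theorem spl (chl : ChlStmt) (cap : CapStmt) : SplStmt := by
  intro V _ a b P M Q u w E F N h
  exact spl_aux chl cap _ le_rfl N h

end Pool.Agent.SGY.H56
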